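import Mathlib
import Pool.Agent.MWFE.StmtsB

set_option autoImplicit false

/-!
# Squad MWFE, row TRZ: deletion and insertion of the tokens
-/

namespace Pool.Agent.MWFE.H95

open Pool.Agent.Helper14_MV Pool.Agent.Helper2_MV Pool.Agent.MVD
open Pool.Agent.MWE (Can XX fxy dxy dx dy up cp L4 pr Xs xl isx Fs nd nr)
open Pool.Agent.MWGR (cb)

theorem bw_congr (R : List ℕ) (B B' : ℕ → List ℕ) (h : ∀ r ∈ R, B r = B' r) :
    Bw R B = Bw R B' := by
  induction R with
  | nil => rfl
  | cons a R ih =>
    have h1 := ih (fun r hr => h r (List.mem_cons_of_mem _ hr))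
    unfold Bw at h1 ⊢
    rw [List.flatMap_cons, List.flatMap_cons, h1, h a List.mem_cons_self]

/-- congruence in every block -/
theorem bw_rr {β : FIC} (R : List ℕ) (B B' : ℕ → List ℕ)
    (h : ∀ r ∈ R, RR β (B r) (B' r)) : RR β (Bw R B) (Bw R B') := by
  induction R with
  | nil => exact RR.refl _
  | cons a R ih =>
    have h1 := ih (fun r hr => h r (List.mem_cons_of_mem _ hr))
    unfold Bw at h1 ⊢
    rw [List.flatMap_cons, List.flatMap_cons]
    exact RR.append (RR.append (h a List.mem_cons_self) (RR.refl _)) h1

theorem bw_filter (p : ℕ → Bool) (hp : ∀ r, p (3 * r + 2) = true) (R : List ℕ)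
    (B : ℕ → List ℕ) : (Bw R B).filter p = Bw R (fun r => (B r).filter p) := by
  induction R with
  | nil => rfl
  | cons a R ih =>
    unfold Bw at ih ⊢
    rw [List.flatMap_cons, List.flatMap_cons, List.filter_append, List.filter_append, ih,
      List.filter_cons_of_pos (hp a), List.filter_nil]

theorem sfr_filter (p : ℕ → Bool) {l : List ℕ} (h : SFr l) : SFr (l.filter p) :=
  fun c hc => h c (List.mem_filter.1 hc).1

theorem filt_self (p : ℕ → Bool) (l : List ℕ) (h : ∀ a ∈ l, p a = true) : l.filter p = l :=
  List.filter_eq_self.2 h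

theorem filt_rep (p : ℕ → Bool) (z k : ℕ) (h : p z = true) :
    (List.replicate k z).filter p = List.replicate k z :=
  filt_self p _ fun a ha => by rw [(List.mem_replicate.1 ha).2]; exact h

theorem sfr_tk (n m v l : ℕ) (hv : v % 3 ≠ 2) : SFr (tk n (3 * m + 1) v l) := by
  intro a ha
  unfold tk at ha
  rcases List.mem_append.1 ha with h | h
  · rw [(List.mem_replicate.1 h).2]; omega
  · rcases List.mem_cons.1 h with h | h
    · rw [h]; exact hv
    · rw [(List.mem_replicate.1 h).2]; omega

theorem kz_a (n z : ℕ) : KZ n z [0, 3] = List.replicate n z ++ 0 :: (List.replicate (2 * n) z ++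
    (List.replicate (n + 1) z ++ 3 :: List.replicate (2 * n - 1) z)) := by
  unfold KZ tk lam
  simp [List.flatMap_cons, List.append_assoc]

theorem kz_b (n z : ℕ) : KZ n z [3, 0] = List.replicate (n + 1) z ++
    3 :: (List.replicate (2 * n - 1) z ++ (List.replicate n z ++
      0 :: List.replicate (2 * n) z)) := by
  unfold KZ tk lam
  simp [List.flatMap_cons, List.append_assoc]

theorem kz_sfr (n m : ℕ) (X : List ℕ) (hX : XX X) : SFr (KZ n (3 * m + 1) X) := by
  intro a ha
  unfold KZ at ha
  obtain ⟨v, hv, h⟩ := List.mem_flatMap.1 ha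
  refine sfr_tk n m v (lam v) ?_ a h
  rcases hX with rfl | rfl
  · rcases List.mem_cons.1 hv with h | h
    · omega
    · rw [List.mem_singleton.1 h]; omega
  · rcases List.mem_cons.1 hv with h | h
    · omega
    · rw [List.mem_singleton.1 h]; omega

/-- both letters deleted -/
theorem kz_xy (n m : ℕ) (hn : 2 ≤ n) (X : List ℕ) (hX : XX X) :
    (KZ n (3 * m + 1) X).filter (fun a => decide (a ≠ 0 ∧ a ≠ 3)) =
      List.replicate (6 * n) (3 * m + 1) := by
  have hz : (fun a : ℕ => decide (a ≠ 0 ∧ a ≠ 3)) (3 * m + 1) = true := by
    show decide _ = true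
    rw [decide_eq_true_iff]; omega
  rcases hX with rfl | rfl
  · rw [kz_a, List.filter_append, List.filter_cons_of_neg (by decide), List.filter_append,
      List.filter_append, List.filter_cons_of_neg (by decide), filt_rep _ _ _ hz,
      filt_rep _ _ _ hz, filt_rep _ _ _ hz, filt_rep _ _ _ hz,
      List.replicate_append_replicate, List.replicate_append_replicate,
      List.replicate_append_replicate]
    have e : n + (2 * n + (n + 1 + (2 * n - 1))) = 6 * n := by omega
    rw [e]
  · rw [kz_b, List.filter_append, List.filter_cons_of_neg (by decide), List.filter_append,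
      List.filter_append, List.filter_cons_of_neg (by decide), filt_rep _ _ _ hz,
      filt_rep _ _ _ hz, filt_rep _ _ _ hz, filt_rep _ _ _ hz,
      List.replicate_append_replicate, List.replicate_append_replicate,
      List.replicate_append_replicate]
    have e : n + 1 + (2 * n - 1 + (n + 2 * n)) = 6 * n := by omega
    rw [e]

/-- `y` deleted -/
theorem kz_y (n m : ℕ) (hn : 2 ≤ n) (X : List ℕ) (hX : XX X) :
    ∃ a b : ℕ, (KZ n (3 * m + 1) X).filter (fun a => decide (a ≠ 3)) =
      List.replicate a (3 * m + 1) ++ 0 :: List.replicate b (3 * m + 1) ∧ 2 ≤ a ∧ 2 ≤ b ∧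
        a ≡ n [MOD n] ∧ b ≡ 2 * n [MOD n] := by
  have hz : (fun a : ℕ => decide (a ≠ 3)) (3 * m + 1) = true := by
    show decide _ = true
    rw [decide_eq_true_iff]; omega
  rcases hX with rfl | rfl
  · refine ⟨n, 5 * n, ?_, hn, by omega, rfl, ?_⟩
    · rw [kz_a, List.filter_append, List.filter_cons_of_pos (by decide), List.filter_append,
        List.filter_append, List.filter_cons_of_neg (by decide), filt_rep _ _ _ hz,
        filt_rep _ _ _ hz, filt_rep _ _ _ hz, filt_rep _ _ _ hz,
        List.replicate_append_replicate, List.replicate_append_replicate]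
      have e : 2 * n + (n + 1 + (2 * n - 1)) = 5 * n := by omega
      rw [e]
    · unfold Nat.ModEq
      rw [Nat.mul_mod_left, Nat.mul_mod_left]
  · refine ⟨4 * n, 2 * n, ?_, by omega, by omega, ?_, rfl⟩
    · rw [kz_b, List.filter_append, List.filter_cons_of_neg (by decide), List.filter_append,
        List.filter_append, List.filter_cons_of_pos (by decide), filt_rep _ _ _ hz,
        filt_rep _ _ _ hz, filt_rep _ _ _ hz, filt_rep _ _ _ hz]
      rw [← List.append_assoc (List.replicate (2 * n - 1) (3 * m + 1)),
        List.replicate_append_replicate, ← List.append_assoc,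
        List.replicate_append_replicate]
      have e : n + 1 + (2 * n - 1 + n) = 4 * n := by omega
      rw [e]
    · unfold Nat.ModEq
      rw [Nat.mul_mod_left, Nat.mod_self]

/-- `x` deleted -/
theorem kz_x (n m : ℕ) (hn : 2 ≤ n) (X : List ℕ) (hX : XX X) :
    ∃ a b : ℕ, (KZ n (3 * m + 1) X).filter (fun a => decide (a ≠ 0)) =
      List.replicate a (3 * m + 1) ++ 3 :: List.replicate b (3 * m + 1) ∧ 2 ≤ a ∧ 2 ≤ b ∧
        a ≡ n + 1 [MOD n] ∧ b ≡ 2 * n - 1 [MOD n] := by
  have hz : (fun a : ℕ => decide (a ≠ 0)) (3 * m + 1) = true := by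
    show decide _ = true
    rw [decide_eq_true_iff]; omega
  rcases hX with rfl | rfl
  · refine ⟨4 * n + 1, 2 * n - 1, ?_, by omega, by omega, ?_, rfl⟩
    · rw [kz_a, List.filter_append, List.filter_cons_of_neg (by decide), List.filter_append,
        List.filter_append, List.filter_cons_of_pos (by decide), filt_rep _ _ _ hz,
        filt_rep _ _ _ hz, filt_rep _ _ _ hz, filt_rep _ _ _ hz]
      rw [← List.append_assoc (List.replicate (2 * n) (3 * m + 1)),
        List.replicate_append_replicate, ← List.append_assoc,
        List.replicate_append_replicate]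
      have e : n + (2 * n + (n + 1)) = 4 * n + 1 := by omega
      rw [e]
    · have h1 : 4 * n ≡ n [MOD n] := by
        unfold Nat.ModEq
        rw [Nat.mul_mod_left, Nat.mod_self]
      exact h1.add_right 1
  · refine ⟨n + 1, 5 * n - 1, ?_, by omega, by omega, rfl, ?_⟩
    · rw [kz_b, List.filter_append, List.filter_cons_of_pos (by decide), List.filter_append,
        List.filter_append, List.filter_cons_of_neg (by decide), filt_rep _ _ _ hz,
        filt_rep _ _ _ hz, filt_rep _ _ _ hz, filt_rep _ _ _ hz,
        List.replicate_append_replicate, List.replicate_append_replicate]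
      have e : 2 * n - 1 + (n + 2 * n) = 5 * n - 1 := by omega
      rw [e]
    · have e : 5 * n - 1 = 3 * n + (2 * n - 1) := by omega
      rw [e]
      have h1 : 3 * n ≡ 0 [MOD n] := by
        unfold Nat.ModEq
        rw [Nat.mul_mod_left, Nat.zero_mod]
      have h2 := h1.add_right (2 * n - 1)
      rw [Nat.zero_add] at h2
      exact h2

theorem gen (hTRH : TrhStmt) (n m : ℕ) (β : FIC) (R c X : List ℕ) (B : ℕ → List ℕ)
    (e : List ℕ) (p : ℕ → Bool) (hp : ∀ r, p (3 * r + 2) = true)
    (hz : ∀ r, p (3 * r + 1) = true)
    (X1 L1 : List ℕ) (hX : (KZ n (3 * m + 1) X).filter p = X1)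
    (hL : (0 :: (c ++ [3])).filter p = L1)
    (sX : SFr X1) (sL : SFr L1) (hR : R.Nodup) (sB : ∀ r, SFr (B r)) (se : SFr e)
    (he : e.filter p = e) (h : RR β (ExZ n m R c X) (Bw R B ++ e)) (Lf Rt : ℕ → List ℕ)
    (X2 : List ℕ) (h2 : RR β (Lf 0 ++ (X1 ++ Rt 0)) X2) :
    RR β (Bw R (fun r => if r = 0 then X2 else Lf r ++ ((if r = 1 then L1
        else [3 * (r - 2) + 1]) ++ Rt r)))
      (Bw R (fun r => Lf r ++ ((B r).filter p ++ Rt r)) ++ e) := by
  have h1 := h.filter p
  unfold ExZ Eg at h1
  rw [List.filter_append, bw_filter p hp, bw_filter p hp, he] at h1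
  have h3 : Bw R (fun r => (if r = 0 then KZ n (3 * m + 1) X else if r = 1 then
        0 :: (c ++ [3]) else [3 * (r - 2) + 1]).filter p) =
      Bw R (fun r => if r = 0 then X1 else if r = 1 then L1 else [3 * (r - 2) + 1]) := by
    refine bw_congr R _ _ fun r _ => ?_
    by_cases h0 : r = 0
    · rw [if_pos h0, if_pos h0, hX]
    · rw [if_neg h0, if_neg h0]
      by_cases h3 : r = 1
      · rw [if_pos h3, if_pos h3, hL]
      · rw [if_neg h3, if_neg h3]
        exact filt_self p _ (fun a ha => by rw [List.mem_singleton.1 ha]; exact hz _)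
  rw [h3] at h1
  have h4 := hTRH β R (fun r => if r = 0 then X1 else if r = 1 then L1 else [3 * (r - 2) + 1])
    (fun r => (B r).filter p) Lf Rt [] e hR ?_ ?_ ?_ se ?_
  · rw [List.append_nil] at h4
    refine β.trans (RR.symm ?_) h4
    refine bw_rr R _ _ fun r _ => ?_
    by_cases h0 : r = 0
    · subst h0
      simp only [if_true]
      exact h2
    · simp only [if_neg h0]
      exact RR.refl _
  · intro r _
    by_cases h0 : r = 0
    · simp only [if_pos h0]
      exact sX
    · by_cases h3 : r = 1
      · simp only [if_neg h0, if_pos h3]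
        exact sL
      · simp only [if_neg h0, if_neg h3]
        intro a ha
        rw [List.mem_singleton.1 ha]
        omega
  · intro r _
    exact sfr_filter p (sB r)
  · intro a ha
    exact absurd ha List.not_mem_nil
  · rw [List.append_nil]
    exact h1

/-- exponents in a word with one letter -/
theorem pw1 (hP : PwlStmt) {n : ℕ} {β : FIC} (hz : Hz n β) (p q : List ℕ) (z v a b a' b' : ℕ)
    (ha : a ≡ a' [MOD n]) (hb : b ≡ b' [MOD n]) (h1 : 2 ≤ a) (h2 : 2 ≤ b) (h3 : 2 ≤ a')
    (h4 : 2 ≤ b') :
    RR β (p ++ (List.replicate a z ++ v :: (List.replicate b z ++ q)))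
      (p ++ (List.replicate a' z ++ v :: (List.replicate b' z ++ q))) := by
  have e1 := hP n β hz p (v :: (List.replicate b z ++ q)) z a a' ha h1 h3
  have e2 := hP n β hz (p ++ (List.replicate a' z ++ [v])) q z b b' hb h2 h4
  simp only [List.append_assoc, List.cons_append, List.nil_append] at e2
  exact β.trans e1 e2

theorem trz (hPWL : PwlStmt) (hBAZ : BazStmt) (hTRH : TrhStmt) : TrzStmt := by
  intro n β m R c X B e hH hc hR h01 hX sB se h
  have hB := hBAZ n β m R c X B e hH hc hR h01 hX sB se h
  have hn := hH.n2
  have hnd : R.Nodup := hR.nodup_iff.2 List.nodup_range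
  have c0 : 0 ∉ c := by
    intro h0
    rcases hc.lo 0 h0 with ⟨d, _, h1⟩ | ⟨_, h1, _⟩ <;> omega
  have c3 : 3 ∉ c := by
    intro h0
    rcases hc.lo 3 h0 with ⟨d, _, h1⟩ | ⟨_, h1, _⟩ <;> omega
  have cs : SFr c := by
    intro a ha
    rcases hc.lo a ha with ⟨d, _, h1⟩ | ⟨h1, _, _⟩ <;> omega
  have mem_ne : ∀ (l : List ℕ) (a b : ℕ), b ∉ l → a ∈ l → a ≠ b := by
    intro l a b hb ha hab
    rw [hab] at ha
    exact hb ha
  have srep : ∀ k : ℕ, SFr (List.replicate k (3 * m + 1)) := by
    intro k a ha
    rw [(List.mem_replicate.1 ha).2]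
    omega
  have sw : ∀ a b v : ℕ, v % 3 ≠ 2 → SFr (List.replicate a (3 * m + 1) ++
      v :: List.replicate b (3 * m + 1)) := by
    intro a b v hv x hx
    rcases List.mem_append.1 hx with h | h
    · exact srep a x h
    · rcases List.mem_cons.1 h with h | h
      · rw [h]; exact hv
      · exact srep b x h
  refine ⟨?_, ?_, ?_, ?_, ?_⟩
  · -- both letters
    intro X' hX'
    have hK : RR β (KZ n (3 * m + 1) X' ++ (List.replicate (6 * n) (3 * m + 1) ++ []))
        (KZ n (3 * m + 1) X') := by
      rw [List.append_nil]
      have h6 : ∀ t : ℕ, t + 6 * n ≡ t [MOD n] := by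
        intro t
        unfold Nat.ModEq
        rw [Nat.add_mul_mod_self_right]
      rcases hX' with rfl | rfl
      · have e1 := hPWL n β hH (List.replicate n (3 * m + 1) ++
          0 :: (List.replicate (2 * n) (3 * m + 1) ++
            (List.replicate (n + 1) (3 * m + 1) ++ [3]))) [] (3 * m + 1)
            (2 * n - 1 + 6 * n) (2 * n - 1) (h6 _) (by omega) (by omega)
        rw [show List.replicate (2 * n - 1 + 6 * n) (3 * m + 1) =
          List.replicate (2 * n - 1) (3 * m + 1) ++ List.replicate (6 * n) (3 * m + 1) from
            List.replicate_append_replicate.symm] at e1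
        simp only [List.append_assoc, List.cons_append, List.nil_append, List.append_nil] at e1
        rw [kz_a]
        simp only [List.append_assoc, List.cons_append]
        exact e1
      · have e1 := hPWL n β hH (List.replicate (n + 1) (3 * m + 1) ++
          3 :: (List.replicate (2 * n - 1) (3 * m + 1) ++
            (List.replicate n (3 * m + 1) ++ [0]))) [] (3 * m + 1)
            (2 * n + 6 * n) (2 * n) (h6 _) (by omega) (by omega)
        rw [show List.replicate (2 * n + 6 * n) (3 * m + 1) =
          List.replicate (2 * n) (3 * m + 1) ++ List.replicate (6 * n) (3 * m + 1) from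
            List.replicate_append_replicate.symm] at e1
        simp only [List.append_assoc, List.cons_append, List.nil_append, List.append_nil] at e1
        rw [kz_b]
        simp only [List.append_assoc, List.cons_append]
        exact e1
    have h1 := gen hTRH n m β R c X B e (fun a => decide (a ≠ 0 ∧ a ≠ 3))
      (fun r => by rw [decide_eq_true_iff]; omega) (fun r => by rw [decide_eq_true_iff]; omega)
      (List.replicate (6 * n) (3 * m + 1)) c (kz_xy n m hn X hX) (by
        rw [List.filter_cons_of_neg (by decide), List.filter_append,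
          List.filter_cons_of_neg (by decide), List.filter_nil, List.append_nil]
        refine filt_self _ c fun a ha => ?_
        rw [decide_eq_true_iff]
        exact ⟨mem_ne c a 0 c0 ha, mem_ne c a 3 c3 ha⟩)
      (srep _) cs hnd hB.sf hB.se
      (filt_self _ e fun a ha => by
        rw [decide_eq_true_iff]
        exact ⟨mem_ne e a 0 hB.xe ha, mem_ne e a 3 hB.ye ha⟩) h
      (fun r => if r = 0 then KZ n (3 * m + 1) X' else if r = 1 then [0] else [])
      (fun r => if r = 1 then [3] else []) (KZ n (3 * m + 1) X') hK
    have e1 : Bw R (fun r => if r = 0 then KZ n (3 * m + 1) X' else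
        (if r = 0 then KZ n (3 * m + 1) X' else if r = 1 then [0] else []) ++
          ((if r = 1 then c else [3 * (r - 2) + 1]) ++ (if r = 1 then [3] else []))) =
        ExZ n m R c X' := by
      unfold ExZ Eg
      refine bw_congr R _ _ fun r _ => ?_
      by_cases h0 : r = 0
      · rw [if_pos h0, if_pos h0]
      · by_cases h3 : r = 1
        · rw [if_neg h0, if_neg h0, if_neg h0, if_pos h3, if_pos h3, if_pos h3, if_pos h3]
          rfl
        · rw [if_neg h0, if_neg h0, if_neg h0, if_neg h3, if_neg h3, if_neg h3, if_neg h3]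
          rfl
    have e2 : Bw R (fun r => (if r = 0 then KZ n (3 * m + 1) X' else
          if r = 1 then [0] else []) ++
        ((B r).filter (fun a => decide (a ≠ 0 ∧ a ≠ 3)) ++
          (if r = 1 then [3] else []))) = Bw R (tbz n m B X') := by
      refine bw_congr R _ _ fun r hr => ?_
      unfold tbz dxy
      by_cases h0 : r = 0
      · rw [if_pos h0, if_pos h0, if_neg (by omega), h0, List.append_nil]
      · by_cases h3 : r = 1
        · rw [if_neg h0, if_neg h0, if_pos h3, if_pos h3, if_pos h3, h3]
          rfl
        · rw [if_neg h0, if_neg h0, if_neg h3, if_neg h3, if_neg h3, List.nil_append,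
            List.append_nil]
          refine filt_self _ _ fun a ha => ?_
          rw [decide_eq_true_iff]
          exact ⟨mem_ne _ a 0 (hB.xo r hr h0 h3) ha, mem_ne _ a 3 (hB.yo r hr h0 h3) ha⟩
    rw [e1, e2] at h1
    exact h1
  · -- `y`, right ends
    obtain ⟨a, b, hab, ha, hb, ha', hb'⟩ := kz_y n m hn X hX
    have hK : RR β ([] ++ ((List.replicate a (3 * m + 1) ++
        0 :: List.replicate b (3 * m + 1)) ++ tk n (3 * m + 1) 3 1))
        (KZ n (3 * m + 1) [0, 3]) := by
      have e1 := pw1 hPWL hH [] (tk n (3 * m + 1) 3 1) (3 * m + 1) 0 a b n (2 * n) ha' hb' ha hb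
        hn (by omega)
      rw [kz_a]
      unfold tk at e1 ⊢
      simp only [List.append_assoc, List.cons_append, List.nil_append] at e1 ⊢
      exact e1
    have h1 := gen hTRH n m β R c X B e (fun a => decide (a ≠ 3))
      (fun r => by rw [decide_eq_true_iff]; omega) (fun r => by rw [decide_eq_true_iff]; omega)
      _ (0 :: c) hab (by
        rw [List.filter_cons_of_pos (by decide), List.filter_append,
          List.filter_cons_of_neg (by decide), List.filter_nil, List.append_nil]
        rw [filt_self _ c fun a ha => by
          rw [decide_eq_true_iff]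
          exact mem_ne c a 3 c3 ha])
      (sw a b 0 (by omega)) (by
        intro a ha
        rcases List.mem_cons.1 ha with h2 | h2
        · rw [h2]; omega
        · exact cs a h2) hnd hB.sf hB.se
      (filt_self _ e fun a ha => by
        rw [decide_eq_true_iff]
        exact mem_ne e a 3 hB.ye ha) h
      (fun _ => []) (fun r => if r = 0 then tk n (3 * m + 1) 3 1 else if r = 1 then [3] else [])
      (KZ n (3 * m + 1) [0, 3]) hK
    have e1 : Bw R (fun r => if r = 0 then KZ n (3 * m + 1) [0, 3] else [] ++
        ((if r = 1 then 0 :: c else [3 * (r - 2) + 1]) ++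
          (if r = 0 then tk n (3 * m + 1) 3 1 else if r = 1 then [3] else []))) =
        ExZ n m R c [0, 3] := by
      unfold ExZ Eg
      refine bw_congr R _ _ fun r _ => ?_
      by_cases h0 : r = 0
      · rw [if_pos h0, if_pos h0]
      · by_cases h3 : r = 1
        · rw [if_neg h0, if_neg h0, if_neg h0, if_pos h3, if_pos h3, if_pos h3]
          rfl
        · rw [if_neg h0, if_neg h0, if_neg h0, if_neg h3, if_neg h3, if_neg h3]
          rfl
    have e2 : Bw R (fun r => [] ++ ((B r).filter (fun a => decide (a ≠ 3)) ++
          (if r = 0 then tk n (3 * m + 1) 3 1 else if r = 1 then [3] else []))) =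
        Bw R (tyz1 n m B) := by
      refine bw_congr R _ _ fun r hr => ?_
      unfold tyz1 dy
      by_cases h0 : r = 0
      · rw [if_pos h0, if_pos h0, h0]
        rfl
      · by_cases h3 : r = 1
        · rw [if_neg h0, if_neg h0, if_pos h3, if_pos h3, h3]
          rfl
        · rw [if_neg h0, if_neg h0, if_neg h3, if_neg h3, List.nil_append,
            List.append_nil]
          refine filt_self _ _ fun a ha => ?_
          rw [decide_eq_true_iff]
          exact mem_ne _ a 3 (hB.yo r hr h0 h3) ha
    rw [e1, e2] at h1
    exact h1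
  · -- `y`, left end of block `0`
    obtain ⟨a, b, hab, ha, hb, ha', hb'⟩ := kz_y n m hn X hX
    have hK : RR β (tk n (3 * m + 1) 3 1 ++ ((List.replicate a (3 * m + 1) ++
        0 :: List.replicate b (3 * m + 1)) ++ []))
        (KZ n (3 * m + 1) [3, 0]) := by
      have e1 := pw1 hPWL hH (tk n (3 * m + 1) 3 1) [] (3 * m + 1) 0 a b n (2 * n) ha' hb' ha hb
        hn (by omega)
      rw [kz_b]
      unfold tk at e1 ⊢
      simp only [List.append_assoc, List.cons_append, List.append_nil] at e1 ⊢
      exact e1
    have h1 := gen hTRH n m β R c X B e (fun a => decide (a ≠ 3))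
      (fun r => by rw [decide_eq_true_iff]; omega) (fun r => by rw [decide_eq_true_iff]; omega)
      _ (0 :: c) hab (by
        rw [List.filter_cons_of_pos (by decide), List.filter_append,
          List.filter_cons_of_neg (by decide), List.filter_nil, List.append_nil]
        rw [filt_self _ c fun a ha => by
          rw [decide_eq_true_iff]
          exact mem_ne c a 3 c3 ha])
      (sw a b 0 (by omega)) (by
        intro a ha
        rcases List.mem_cons.1 ha with h2 | h2
        · rw [h2]; omega
        · exact cs a h2) hnd hB.sf hB.se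
      (filt_self _ e fun a ha => by
        rw [decide_eq_true_iff]
        exact mem_ne e a 3 hB.ye ha) h
      (fun r => if r = 0 then tk n (3 * m + 1) 3 1 else []) (fun r => if r = 1 then [3] else [])
      (KZ n (3 * m + 1) [3, 0]) hK
    have e1 : Bw R (fun r => if r = 0 then KZ n (3 * m + 1) [3, 0] else
        (if r = 0 then tk n (3 * m + 1) 3 1 else []) ++ ((if r = 1 then 0 :: c else
          [3 * (r - 2) + 1]) ++ (if r = 1 then [3] else []))) =
        ExZ n m R c [3, 0] := by
      unfold ExZ Eg
      refine bw_congr R _ _ fun r _ => ?_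
      by_cases h0 : r = 0
      · rw [if_pos h0, if_pos h0]
      · by_cases h3 : r = 1
        · rw [if_neg h0, if_neg h0, if_neg h0, if_pos h3, if_pos h3, if_pos h3]
          rfl
        · rw [if_neg h0, if_neg h0, if_neg h0, if_neg h3, if_neg h3, if_neg h3]
          rfl
    have e2 : Bw R (fun r => (if r = 0 then tk n (3 * m + 1) 3 1 else []) ++
        ((B r).filter (fun a => decide (a ≠ 3)) ++ (if r = 1 then [3] else []))) =
        Bw R (tyz2 n m B) := by
      refine bw_congr R _ _ fun r hr => ?_
      unfold tyz2 dy
      by_cases h0 : r = 0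
      · rw [if_pos h0, if_pos h0, if_neg (by omega), h0, List.append_nil]
      · by_cases h3 : r = 1
        · rw [if_neg h0, if_neg h0, if_pos h3, if_pos h3, h3]
          rfl
        · rw [if_neg h0, if_neg h0, if_neg h3, if_neg h3, List.nil_append,
            List.append_nil]
          refine filt_self _ _ fun a ha => ?_
          rw [decide_eq_true_iff]
          exact mem_ne _ a 3 (hB.yo r hr h0 h3) ha
    rw [e1, e2] at h1
    exact h1
  · -- `x`, left ends
    obtain ⟨a, b, hab, ha, hb, ha', hb'⟩ := kz_x n m hn X hX
    have hK : RR β (tk n (3 * m + 1) 0 0 ++ ((List.replicate a (3 * m + 1) ++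
        3 :: List.replicate b (3 * m + 1)) ++ []))
        (KZ n (3 * m + 1) [0, 3]) := by
      have e1 := pw1 hPWL hH (tk n (3 * m + 1) 0 0) [] (3 * m + 1) 3 a b (n + 1) (2 * n - 1)
        ha' hb' ha hb (by omega) (by omega)
      rw [kz_a]
      unfold tk at e1 ⊢
      simp only [List.append_assoc, List.cons_append, List.append_nil, Nat.add_zero,
        Nat.sub_zero] at e1 ⊢
      exact e1
    have h1 := gen hTRH n m β R c X B e (fun a => decide (a ≠ 0))
      (fun r => by rw [decide_eq_true_iff]; omega) (fun r => by rw [decide_eq_true_iff]; omega)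
      _ (c ++ [3]) hab (by
        rw [List.filter_cons_of_neg (by decide), List.filter_append,
          List.filter_cons_of_pos (by decide), List.filter_nil]
        rw [filt_self _ c fun a ha => by
          rw [decide_eq_true_iff]
          exact mem_ne c a 0 c0 ha])
      (sw a b 3 (by omega)) (by
        intro a ha
        rcases List.mem_append.1 ha with h2 | h2
        · exact cs a h2
        · rw [List.mem_singleton.1 h2]; omega) hnd hB.sf hB.se
      (filt_self _ e fun a ha => by
        rw [decide_eq_true_iff]
        exact mem_ne e a 0 hB.xe ha) h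
      (fun r => if r = 0 then tk n (3 * m + 1) 0 0 else if r = 1 then [0] else [])
      (fun _ => []) (KZ n (3 * m + 1) [0, 3]) hK
    have e1 : Bw R (fun r => if r = 0 then KZ n (3 * m + 1) [0, 3] else
        (if r = 0 then tk n (3 * m + 1) 0 0 else if r = 1 then [0] else []) ++
          ((if r = 1 then c ++ [3] else [3 * (r - 2) + 1]) ++ [])) =
        ExZ n m R c [0, 3] := by
      unfold ExZ Eg
      refine bw_congr R _ _ fun r _ => ?_
      rw [List.append_nil]
      by_cases h0 : r = 0
      · rw [if_pos h0, if_pos h0]
      · by_cases h3 : r = 1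
        · rw [if_neg h0, if_neg h0, if_neg h0, if_pos h3, if_pos h3, if_pos h3]
          rfl
        · rw [if_neg h0, if_neg h0, if_neg h0, if_neg h3, if_neg h3, if_neg h3]
          rfl
    have e2 : Bw R (fun r => (if r = 0 then tk n (3 * m + 1) 0 0 else
          if r = 1 then [0] else []) ++
        ((B r).filter (fun a => decide (a ≠ 0)) ++ [])) = Bw R (txz1 n m B) := by
      refine bw_congr R _ _ fun r hr => ?_
      unfold txz1 dx
      rw [List.append_nil]
      by_cases h0 : r = 0
      · rw [if_pos h0, if_pos h0, h0]
      · by_cases h3 : r = 1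
        · rw [if_neg h0, if_neg h0, if_pos h3, if_pos h3, h3]
          rfl
        · rw [if_neg h0, if_neg h0, if_neg h3, if_neg h3, List.nil_append]
          refine filt_self _ _ fun a ha => ?_
          rw [decide_eq_true_iff]
          exact mem_ne _ a 0 (hB.xo r hr h0 h3) ha
    rw [e1, e2] at h1
    exact h1
  · -- `x`, right end of block `0`
    obtain ⟨a, b, hab, ha, hb, ha', hb'⟩ := kz_x n m hn X hX
    have hK : RR β ([] ++ ((List.replicate a (3 * m + 1) ++
        3 :: List.replicate b (3 * m + 1)) ++ tk n (3 * m + 1) 0 0))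
        (KZ n (3 * m + 1) [3, 0]) := by
      have e1 := pw1 hPWL hH [] (tk n (3 * m + 1) 0 0) (3 * m + 1) 3 a b (n + 1) (2 * n - 1)
        ha' hb' ha hb (by omega) (by omega)
      rw [kz_b]
      unfold tk at e1 ⊢
      simp only [List.append_assoc, List.cons_append, List.nil_append, Nat.add_zero,
        Nat.sub_zero] at e1 ⊢
      exact e1
    have h1 := gen hTRH n m β R c X B e (fun a => decide (a ≠ 0))
      (fun r => by rw [decide_eq_true_iff]; omega) (fun r => by rw [decide_eq_true_iff]; omega)
      _ (c ++ [3]) hab (by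
        rw [List.filter_cons_of_neg (by decide), List.filter_append,
          List.filter_cons_of_pos (by decide), List.filter_nil]
        rw [filt_self _ c fun a ha => by
          rw [decide_eq_true_iff]
          exact mem_ne c a 0 c0 ha])
      (sw a b 3 (by omega)) (by
        intro a ha
        rcases List.mem_append.1 ha with h2 | h2
        · exact cs a h2
        · rw [List.mem_singleton.1 h2]; omega) hnd hB.sf hB.se
      (filt_self _ e fun a ha => by
        rw [decide_eq_true_iff]
        exact mem_ne e a 0 hB.xe ha) h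
      (fun r => if r = 1 then [0] else []) (fun r => if r = 0 then tk n (3 * m + 1) 0 0 else [])
      (KZ n (3 * m + 1) [3, 0]) hK
    have e1 : Bw R (fun r => if r = 0 then KZ n (3 * m + 1) [3, 0] else
        (if r = 1 then [0] else []) ++ ((if r = 1 then c ++ [3] else [3 * (r - 2) + 1]) ++
          (if r = 0 then tk n (3 * m + 1) 0 0 else []))) =
        ExZ n m R c [3, 0] := by
      unfold ExZ Eg
      refine bw_congr R _ _ fun r _ => ?_
      by_cases h0 : r = 0
      · rw [if_pos h0, if_pos h0]
      · by_cases h3 : r = 1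
        · rw [if_neg h0, if_neg h0, if_neg h0, if_pos h3, if_pos h3, if_pos h3, List.append_nil]
          rfl
        · rw [if_neg h0, if_neg h0, if_neg h0, if_neg h3, if_neg h3, if_neg h3]
          rfl
    have e2 : Bw R (fun r => (if r = 1 then [0] else []) ++
        ((B r).filter (fun a => decide (a ≠ 0)) ++
          (if r = 0 then tk n (3 * m + 1) 0 0 else []))) =
        Bw R (txz2 n m B) := by
      refine bw_congr R _ _ fun r hr => ?_
      unfold txz2 dx
      by_cases h0 : r = 0
      · rw [if_pos h0, if_pos h0, if_neg (by omega), h0, List.nil_append]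
      · by_cases h3 : r = 1
        · rw [if_neg h0, if_neg h0, if_pos h3, if_pos h3, h3, List.append_nil]
          rfl
        · rw [if_neg h0, if_neg h0, if_neg h3, if_neg h3, List.nil_append,
            List.append_nil]
          refine filt_self _ _ fun a ha => ?_
          rw [decide_eq_true_iff]
          exact mem_ne _ a 0 (hB.xo r hr h0 h3) ha
    rw [e1, e2] at h1
    exact h1

end Pool.Agent.MWFE.H95
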